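import Pool.Agent.K7.H7.TB.Stm

/-!
# Project TB (MP_1a3145_co), job BAIRE
-/

set_option autoImplicit false

open MeasureTheory Metric Set

namespace Pool.Agent.K7.H7.TB

section

variable {b : ℕ → (Fin 4 → ℝ) → ℝ} {w B : ℕ → ℝ}

/-- the coefficient space -/
abbrev Y : Type := Fin 5 → ℕ → Icc (1 : ℝ) 2

/-- the value of the functional -/
noncomputable def F (b : ℕ → (Fin 4 → ℝ) → ℝ) (w : ℕ → ℝ) (c : ℕ → Icc (1 : ℝ) 2)
    (p : Fin 4 → ℝ) : ℝ := ∑' j, (c j : ℝ) * (w j * b j p)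

theorem abs_coef (c : Icc (1 : ℝ) 2) : |(c : ℝ)| ≤ 2 := by
  obtain ⟨x, h1, h2⟩ := c
  simp only
  rw [abs_of_nonneg (by linarith)]
  exact h2

theorem term_le (hw : ∀ j, 0 < w j) (hb : ∀ j p, |b j p| ≤ B j) (c : ℕ → Icc (1 : ℝ) 2)
    (p : Fin 4 → ℝ) (j : ℕ) : ‖(c j : ℝ) * (w j * b j p)‖ ≤ 2 * (w j * B j) := by
  rw [Real.norm_eq_abs, abs_mul, abs_mul, abs_of_pos (hw j)]
  exact mul_le_mul (abs_coef _) (mul_le_mul_of_nonneg_left (hb j p) (hw j).le)
    (mul_nonneg (hw j).le (abs_nonneg _)) (by norm_num)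

theorem summable_term (hw : ∀ j, 0 < w j) (hS : Summable fun j => w j * B j)
    (hb : ∀ j p, |b j p| ≤ B j) (c : ℕ → Icc (1 : ℝ) 2) (p : Fin 4 → ℝ) :
    Summable fun j => (c j : ℝ) * (w j * b j p) :=
  Summable.of_norm_bounded (hS.mul_left 2) (term_le hw hb c p)

/-- the bad coefficients -/
def Bad (b : ℕ → (Fin 4 → ℝ) → ℝ) (w : ℕ → ℝ) (K : Set (Fin 4 → ℝ)) : Set Y :=
  {c | ∃ p ∈ K, ∀ i, F b w (c i) p = 0}

theorem isClosed_bad (hw : ∀ j, 0 < w j) (hS : Summable fun j => w j * B j)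
    (hb : ∀ j p, |b j p| ≤ B j) {K : Set (Fin 4 → ℝ)} (hK : IsCompact K)
    (hc : ∀ j, ContinuousOn (b j) K) : IsClosed (Bad b w K) := by
  have hcont : ContinuousOn (fun x : Y × (Fin 4 → ℝ) => fun i => F b w (x.1 i) x.2)
      (univ ×ˢ K) := by
    refine continuousOn_pi.2 fun i => ?_
    refine continuousOn_tsum (fun j => ?_) (hS.mul_left 2) (fun j x _ => term_le hw hb _ _ j)
    refine ContinuousOn.mul ?_ (continuousOn_const.mul ?_)
    · exact (continuous_subtype_val.comp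
        ((continuous_apply j).comp ((continuous_apply i).comp continuous_fst))).continuousOn
    · exact (hc j).comp continuousOn_snd fun x hx => hx.2
  have hclosed : IsClosed ((univ ×ˢ K) ∩
      (fun x : Y × (Fin 4 → ℝ) => fun i => F b w (x.1 i) x.2) ⁻¹' {0}) :=
    hcont.preimage_isClosed_of_isClosed (isClosed_univ.prod hK.isClosed) isClosed_singleton
  have hcomp : IsCompact ((univ ×ˢ K) ∩
      (fun x : Y × (Fin 4 → ℝ) => fun i => F b w (x.1 i) x.2) ⁻¹' {0}) :=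
    (isCompact_univ.prod hK).of_isClosed_subset hclosed inter_subset_left
  have himg : Bad b w K = Prod.fst '' ((univ ×ˢ K) ∩
      (fun x : Y × (Fin 4 → ℝ) => fun i => F b w (x.1 i) x.2) ⁻¹' {0}) := by
    ext c
    constructor
    · rintro ⟨p, hp, h⟩
      exact ⟨(c, p), ⟨⟨mem_univ _, hp⟩, funext h⟩, rfl⟩
    · rintro ⟨⟨c', p⟩, ⟨⟨-, hp⟩, h⟩, rfl⟩
      exact ⟨p, hp, fun i => congrFun h i⟩
  rw [himg]
  exact (hcomp.image continuous_fst).isClosed

/-- the bad coefficients have no interior points -/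
theorem interior_bad (hD : StDim) (hw : ∀ j, 0 < w j) (hW : Summable w)
    (hS : Summable fun j => w j * B j) (hb : ∀ j p, |b j p| ≤ B j) {K : Set (Fin 4 → ℝ)}
    (hK : IsCompact K) {C : ℝ} (hC : 0 ≤ C)
    (hLip : ∀ j, ∀ p ∈ K, ∀ q ∈ K, |b j p - b j q| ≤ C * dist p q)
    (hcont : ∀ j, ContinuousOn (b j) K) (hne : ∃ j, ∀ p ∈ K, b j p ≠ 0) :
    interior (Bad b w K) = ∅ := by
  classical
  by_contra hint
  obtain ⟨c, hc⟩ := nonempty_iff_ne_empty.2 hint
  obtain ⟨j₀, hj₀⟩ := hne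
  set U : Set Y := interior (Bad b w K) with hU
  have hUo : IsOpen U := isOpen_interior
  -- the remaining sum
  set R : Fin 5 → (Fin 4 → ℝ) → ℝ := fun i p =>
    ∑' j, if j = j₀ then 0 else (c i j : ℝ) * (w j * b j p) with hR
  set d : (Fin 4 → ℝ) → ℝ := fun p => w j₀ * b j₀ p with hd
  set G : (Fin 4 → ℝ) → (Fin 5 → ℝ) := fun p i => -(R i p / d p) with hG
  -- the substitution
  let ψ : (Fin 5 → Icc (1 : ℝ) 2) → Y := fun t i => Function.update (c i) j₀ (t i)
  have hψc : Continuous ψ := by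
    refine continuous_pi fun i => ?_
    exact (continuous_const (y := c i)).update j₀ (continuous_apply i)
  have hψ0 : ψ (fun i => c i j₀) = c := by
    funext i
    exact Function.update_eq_self _ _
  have hval : ∀ (t : Fin 5 → Icc (1 : ℝ) 2) (i : Fin 5) (p : Fin 4 → ℝ),
      F b w (ψ t i) p = (t i : ℝ) * d p + R i p := by
    intro t i p
    unfold F
    rw [(summable_term hw hS hb (ψ t i) p).tsum_eq_add_tsum_ite j₀]
    congr 1
    · simp [ψ, hd]
    · refine tsum_congr fun j => ?_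
      by_cases hj : j = j₀
      · simp [hj]
      · simp [hj, ψ]
  -- an open set of values
  obtain ⟨O, hO, hOW⟩ : ∃ O : Set (Fin 5 → ℝ), IsOpen O ∧
      (fun (t : Fin 5 → Icc (1 : ℝ) 2) (i : Fin 5) => (t i : ℝ)) ⁻¹' O = ψ ⁻¹' U := by
    have hind : Topology.IsInducing (fun (t : Fin 5 → Icc (1 : ℝ) 2) (i : Fin 5) => (t i : ℝ)) :=
      Topology.IsInducing.piMap fun _ => Topology.IsInducing.subtypeVal
    exact hind.isOpen_iff.1 (hUo.preimage hψc)
  have ht0 : (fun i => (c i j₀ : ℝ)) ∈ O := by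
    have h1 : (fun i => c i j₀) ∈ ψ ⁻¹' U := by
      rw [mem_preimage, hψ0]; exact hc
    rw [← hOW] at h1
    exact h1
  set V : Set (Fin 5 → ℝ) := O ∩ univ.pi fun _ => Ioo (1 : ℝ) 2 with hV
  have hVo : IsOpen V := hO.inter (isOpen_set_pi finite_univ fun _ _ => isOpen_Ioo)
  have hVne : V.Nonempty := by
    have h1 : (fun i => (c i j₀ : ℝ)) ∈ closure (univ.pi fun _ : Fin 5 => Ioo (1 : ℝ) 2) := by
      rw [closure_pi_set]
      intro i _
      rw [closure_Ioo (by norm_num)]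
      exact (c i j₀).2
    exact mem_closure_iff.1 h1 O hO ht0
  have hVG : V ⊆ G '' K := by
    intro t ht
    have htI : ∀ i, t i ∈ Icc (1 : ℝ) 2 := fun i => ⟨(ht.2 i (mem_univ _)).1.le,
      (ht.2 i (mem_univ _)).2.le⟩
    have h1 : (fun i => (⟨t i, htI i⟩ : Icc (1 : ℝ) 2)) ∈ ψ ⁻¹' U := by
      rw [← hOW]
      exact ht.1
    obtain ⟨p, hp, hz⟩ := interior_subset h1
    refine ⟨p, hp, ?_⟩
    funext i
    have h2 : t i * d p + R i p = 0 :=
      (hval (fun i => (⟨t i, htI i⟩ : Icc (1 : ℝ) 2)) i p).symm.trans (hz i)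
    have hdp : d p ≠ 0 := mul_ne_zero (hw j₀).ne' (hj₀ p hp)
    simp only [hG]
    field_simp
    linarith
  -- the map is Lipschitz
  have hKne : K.Nonempty := by
    obtain ⟨t, ht⟩ := hVne
    obtain ⟨p, hp, -⟩ := hVG ht
    exact ⟨p, hp⟩
  obtain ⟨p₀, hp₀, hmin⟩ := hK.exists_isMinOn hKne ((hcont j₀).abs)
  have hδ : 0 < |b j₀ p₀| := abs_pos.2 (hj₀ p₀ hp₀)
  have hdlow : ∀ p ∈ K, w j₀ * |b j₀ p₀| ≤ |d p| := by
    intro p hp
    rw [hd]
    simp only
    rw [abs_mul, abs_of_pos (hw j₀)]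
    exact mul_le_mul_of_nonneg_left (hmin hp) (hw j₀).le
  set δ : ℝ := w j₀ * |b j₀ p₀| with hδd
  have hδ0 : 0 < δ := mul_pos (hw j₀) hδ
  have hRs : ∀ i p, Summable fun j => if j = j₀ then 0 else (c i j : ℝ) * (w j * b j p) := by
    intro i p
    refine Summable.of_norm_bounded (hS.mul_left 2) fun j => ?_
    by_cases hj : j = j₀
    · rw [if_pos hj, norm_zero]
      exact mul_nonneg (by norm_num) (mul_nonneg (hw j).le ((abs_nonneg _).trans (hb j p)))
    · rw [if_neg hj]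
      exact term_le hw hb _ _ _
  have hRb : ∀ i p, |R i p| ≤ ∑' j, 2 * (w j * B j) := by
    intro i p
    rw [hR, ← Real.norm_eq_abs]
    refine tsum_of_norm_bounded (hS.mul_left 2).hasSum fun j => ?_
    by_cases hj : j = j₀
    · rw [if_pos hj, norm_zero]
      exact mul_nonneg (by norm_num) (mul_nonneg (hw j).le ((abs_nonneg _).trans (hb j p)))
    · rw [if_neg hj]
      exact term_le hw hb _ _ _
  have hRL : ∀ i, ∀ p ∈ K, ∀ q ∈ K, |R i p - R i q| ≤ (∑' j, 2 * C * w j) * dist p q := by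
    intro i p hp q hq
    rw [hR]
    simp only
    rw [← (hRs i p).tsum_sub (hRs i q), ← Real.norm_eq_abs, ← tsum_mul_right]
    refine tsum_of_norm_bounded ((hW.mul_left (2 * C)).mul_right _).hasSum fun j => ?_
    by_cases hj : j = j₀
    · rw [if_pos hj, if_pos hj, sub_zero, norm_zero]
      have := (hw j).le
      positivity
    · rw [if_neg hj, if_neg hj, Real.norm_eq_abs]
      have e1 : (c i j : ℝ) * (w j * b j p) - (c i j : ℝ) * (w j * b j q) =
          (c i j : ℝ) * (w j * (b j p - b j q)) := by ring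
      rw [e1, abs_mul, abs_mul, abs_of_pos (hw j)]
      calc |(c i j : ℝ)| * (w j * |b j p - b j q|) ≤ 2 * (w j * (C * dist p q)) :=
            mul_le_mul (abs_coef _) (mul_le_mul_of_nonneg_left (hLip j p hp q hq) (hw j).le)
              (mul_nonneg (hw j).le (abs_nonneg _)) (by norm_num)
        _ = 2 * C * w j * dist p q := by ring
  set W₁ : ℝ := ∑' j, 2 * (w j * B j) with hW₁
  set W₂ : ℝ := ∑' j, 2 * C * w j with hW₂
  have hW₁0 : 0 ≤ W₁ := (abs_nonneg _).trans (hRb 0 p₀)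
  have hW₂0 : 0 ≤ W₂ := tsum_nonneg fun j => by
    have := (hw j).le
    positivity
  have hdb : ∀ p, |d p| ≤ w j₀ * B j₀ := by
    intro p
    rw [hd]
    simp only
    rw [abs_mul, abs_of_pos (hw j₀)]
    exact mul_le_mul_of_nonneg_left (hb j₀ p) (hw j₀).le
  have hdL : ∀ p ∈ K, ∀ q ∈ K, |d p - d q| ≤ w j₀ * C * dist p q := by
    intro p hp q hq
    rw [hd]
    simp only
    rw [← mul_sub, abs_mul, abs_of_pos (hw j₀), mul_assoc]
    exact mul_le_mul_of_nonneg_left (hLip j₀ p hp q hq) (hw j₀).le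
  have hB0 : 0 ≤ B j₀ := (abs_nonneg _).trans (hb j₀ p₀)
  set L : ℝ := (W₂ * (w j₀ * B j₀) + W₁ * (w j₀ * C)) / δ ^ 2 with hL
  have hL0 : 0 ≤ L := by
    have := (hw j₀).le
    positivity
  have hGL : LipschitzOnWith ⟨L, hL0⟩ G K := by
    refine LipschitzOnWith.of_dist_le_mul fun p hp q hq => ?_
    rw [dist_pi_le_iff (by positivity)]
    intro i
    rw [Real.dist_eq]
    have hdp : d p ≠ 0 := mul_ne_zero (hw j₀).ne' (hj₀ p hp)
    have hdq : d q ≠ 0 := mul_ne_zero (hw j₀).ne' (hj₀ q hq)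
    have e1 : G p i - G q i = -((R i p - R i q) * d q + R i q * (d q - d p)) / (d p * d q) := by
      simp only [hG]
      field_simp
      ring
    rw [e1, abs_div, abs_neg, abs_mul (d p)]
    have e2 : |(R i p - R i q) * d q + R i q * (d q - d p)| ≤
        (W₂ * (w j₀ * B j₀) + W₁ * (w j₀ * C)) * dist p q := by
      calc |(R i p - R i q) * d q + R i q * (d q - d p)|
          ≤ |R i p - R i q| * |d q| + |R i q| * |d q - d p| := by
            rw [← abs_mul, ← abs_mul]; exact abs_add_le _ _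
        _ ≤ (W₂ * dist p q) * (w j₀ * B j₀) + W₁ * (w j₀ * C * dist q p) := by
            refine add_le_add (mul_le_mul (hRL i p hp q hq) (hdb q) (abs_nonneg _)
              (mul_nonneg hW₂0 dist_nonneg)) (mul_le_mul (hRb i q) (hdL q hq p hp)
              (abs_nonneg _) hW₁0)
        _ = (W₂ * (w j₀ * B j₀) + W₁ * (w j₀ * C)) * dist p q := by rw [dist_comm q p]; ring
    have e3 : δ ^ 2 ≤ |d p| * |d q| := by
      rw [sq]
      exact mul_le_mul (hdlow p hp) (hdlow q hq) hδ0.le (abs_nonneg _)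
    calc |(R i p - R i q) * d q + R i q * (d q - d p)| / (|d p| * |d q|)
        ≤ ((W₂ * (w j₀ * B j₀) + W₁ * (w j₀ * C)) * dist p q) / δ ^ 2 :=
          div_le_div₀ ((abs_nonneg _).trans e2) e2 (by positivity) e3
      _ = L * dist p q := by rw [hL]; ring
  have := hD K G ⟨L, hL0⟩ hGL
  have h1 : V ⊆ interior (G '' K) := interior_maximal hVG hVo
  rw [this] at h1
  obtain ⟨t, ht⟩ := hVne
  exact h1 ht

end

theorem baire (hD : StDim) : StBaire := by
  intro b Q w B hQ hw hW hS hb hLip hne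
  have hcont : ∀ n j, ContinuousOn (b j) (Q n) := by
    intro n j
    obtain ⟨C, hC, h⟩ := hLip n
    have h1 : LipschitzOnWith ⟨C, hC⟩ (b j) (Q n) :=
      LipschitzOnWith.of_dist_le_mul fun p hp q hq => by
        rw [Real.dist_eq]; exact h j p hp q hq
    exact h1.continuousOn
  have hopen : ∀ n, IsOpen (Bad b w (Q n))ᶜ := fun n =>
    (isClosed_bad hw hS hb (hQ n) (hcont n)).isOpen_compl
  have hdense : ∀ n, Dense (Bad b w (Q n))ᶜ := by
    intro n
    obtain ⟨C, hC, h⟩ := hLip n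
    rw [← interior_eq_empty_iff_dense_compl]
    exact interior_bad hD hw hW hS hb (hQ n) hC h (hcont n) (hne n)
  have hall : Dense (⋂ n, (Bad b w (Q n))ᶜ) := dense_iInter_of_isOpen hopen hdense
  have : Nonempty Y := ⟨fun _ _ => ⟨1, by norm_num, by norm_num⟩⟩
  obtain ⟨c, hc⟩ := hall.nonempty
  refine ⟨fun i j => (c i j : ℝ), fun i j => (c i j).2, fun n p hp => ?_⟩
  have h1 : c ∉ Bad b w (Q n) := (mem_iInter.1 hc) n
  by_contra h
  push Not at h
  exact h1 ⟨p, hp, h⟩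

end Pool.Agent.K7.H7.TB
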