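import Pool.Agent.K7.H7.TB.Baire

/-!
# Project TB (MP_1a3145_co), job FINAL
-/

set_option autoImplicit false

open MeasureTheory Metric Set

namespace Pool.Agent.K7.H7.TB

theorem isCompact_Q (n : ℕ) : IsCompact (Q n) := by
  have h1 : IsCompact (univ.pi fun _ : Fin 4 => Icc (-(n : ℝ)) n) :=
    isCompact_univ_pi fun _ => isCompact_Icc
  refine h1.of_isClosed_subset ?_ ?_
  · have e : Q n = (⋂ i, {p : Fin 4 → ℝ | |p i| ≤ (n : ℝ)}) ∩ ({p | 0 ≤ p 2} ∩
        {p | 1 / ((n : ℝ) + 1) ≤ p 3}) := by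
      ext p
      simp [Q]
    rw [e]
    refine (isClosed_iInter fun i => ?_).inter (IsClosed.inter ?_ ?_)
    · exact isClosed_le ((continuous_apply i).abs) continuous_const
    · exact isClosed_le continuous_const (continuous_apply 2)
    · exact isClosed_le continuous_const (continuous_apply 3)
  · intro p hp i _
    exact abs_le.1 (hp.1 i)

theorem exists_mem_Q (p : Fin 4 → ℝ) (h2 : 0 ≤ p 2) (h3 : 0 < p 3) : ∃ n, p ∈ Q n := by
  obtain ⟨n₁, hn₁⟩ := exists_nat_ge (∑ i, |p i|)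
  obtain ⟨n₂, hn₂⟩ := exists_nat_one_div_lt h3
  refine ⟨max n₁ n₂, fun i => ?_, h2, ?_⟩
  · have h4 : |p i| ≤ ∑ i, |p i| :=
      Finset.single_le_sum (f := fun i => |p i|) (fun i _ => abs_nonneg _) (Finset.mem_univ i)
    have h5 : (n₁ : ℝ) ≤ ((max n₁ n₂ : ℕ) : ℝ) := by exact_mod_cast le_max_left _ _
    linarith
  · have h5 : (n₂ : ℝ) ≤ ((max n₁ n₂ : ℕ) : ℝ) := by exact_mod_cast le_max_right _ _
    refine le_trans ?_ hn₂.le
    exact one_div_le_one_div_of_le (by positivity) (by linarith)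

theorem wt_pos (j : ℕ) : 0 < wt j := by unfold wt; positivity

theorem wt_mul (j : ℕ) (C : ℝ) : wt j * (C * ((j : ℝ) + 1) ^ 3) = C * (1 / ((j : ℝ) + 1) ^ 2) := by
  unfold wt
  have : (0 : ℝ) < (j : ℝ) + 1 := by positivity
  field_simp

theorem summable_inv_sq : Summable fun j : ℕ => 1 / ((j : ℝ) + 1) ^ 2 := by
  have h := (summable_nat_add_iff 1).2 (Real.summable_one_div_nat_pow (p := 2).2 (by norm_num))
  simpa using h

theorem main' (hN : StNorm) (hL : StLip) (hG : StGap) (hD : StDim) (hM : StMeas) :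
    ∃ μ : Fin 5 → Measure E, (∀ i, IsFiniteMeasure (μ i) ∧ μ i ≪ volume ∧
      ∀ (L : E ≃ₗᵢ[ℝ] E) (A : Set E), μ i (L '' A) = μ i A) ∧
        ∀ T, RegularTorus T → ∃ i, 2 * μ i T ≠ μ i univ := by
  obtain ⟨hG1, C, hC, hG2⟩ := hG
  have hW : Summable wt := by
    refine Summable.of_nonneg_of_le (fun j => (wt_pos j).le) (fun j => ?_) summable_inv_sq
    unfold wt
    refine one_div_le_one_div_of_le (by positivity) ?_
    exact pow_le_pow_right₀ (by have : (0 : ℝ) ≤ j := Nat.cast_nonneg j; linarith) (by norm_num)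
  have hS : Summable fun j => wt j * (C * ((j : ℝ) + 1) ^ 3) := by
    simp_rw [wt_mul]
    exact summable_inv_sq.mul_left C
  obtain ⟨c, hc, hbad⟩ := baire hD b Q wt (fun j => C * ((j : ℝ) + 1) ^ 3) isCompact_Q wt_pos hW hS
    hG2 hL hG1
  choose μ h1 h2 h3 h4 using fun i => hM (c i) (hc i)
  refine ⟨μ, fun i => ⟨h1 i, h2 i, h3 i⟩, fun T hT => ?_⟩
  obtain ⟨L, p, hp2, hp3, hT0⟩ := hN T hT
  obtain ⟨n, hn⟩ := exists_mem_Q p hp2 hp3
  obtain ⟨i, hi⟩ := hbad n p hn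
  refine ⟨i, fun h => hi ?_⟩
  refine h4 i p ?_
  rw [hT0, h3 i L T]
  exact h

theorem main (hN : StNorm) (hL : StLip) (hG : StGap) (hD : StDim) (hM : StMeas) : StMain := by
  obtain ⟨μ, h1, h2⟩ := main' hN hL hG hD hM
  exact ⟨μ, fun i => ⟨(h1 i).1, (h1 i).2.1⟩, h2⟩

end Pool.Agent.K7.H7.TB
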