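import Mathlib

/-!
# Project TB (MP_1a3145_co): five measures which no regular torus bisects; statements of the jobs
-/

set_option autoImplicit false

open MeasureTheory Metric Set

namespace Pool.Agent.K7.H7.TB

/-! ### Definitions of the problem -/

/-- the space -/
abbrev E : Type := EuclideanSpace ℝ (Fin 3)

/-- the circle with centre `c`, radius `r` in the plane spanned by `u`, `w` -/
def circle (c u w : E) (r : ℝ) : Set E :=
  {x | ∃ t : ℝ, x = c + r • (Real.cos t • u + Real.sin t • w)}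

/-- flat circles, points included -/
def FlatCircle (S : Set E) : Prop :=
  ∃ (c u w : E) (r : ℝ), ‖u‖ = 1 ∧ ‖w‖ = 1 ∧ inner ℝ u w = 0 ∧ 0 ≤ r ∧ S = circle c u w r

/-- the closed neighbourhood of `S` of radius `α` -/
def torus (S : Set E) (α : ℝ) : Set E := {x | infDist x S ≤ α}

/-- regular tori -/
def RegularTorus (T : Set E) : Prop :=
  ∃ (S : Set E) (α : ℝ), FlatCircle S ∧ 0 < α ∧ T = torus S α

/-- the main theorem -/
def StMain : Prop := ∃ μ : Fin 5 → Measure E, (∀ i, IsFiniteMeasure (μ i) ∧ μ i ≪ volume) ∧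
  ∀ T, RegularTorus T → ∃ i, 2 * μ i T ≠ μ i univ

/-! ### Notation for the proof -/

/-- the unit vectors -/
noncomputable def e (i : Fin 3) : E := EuclideanSpace.single i 1

/-- the circle with the parameters `p` in standard position: centre `(p 0, 0, p 1)`, radius `p 2`,
horizontal -/
noncomputable def S0 (p : Fin 4 → ℝ) : Set E := circle (p 0 • e 0 + p 1 • e 2) (e 0) (e 1) (p 2)

/-- the torus with the parameters `p` -/
noncomputable def T0 (p : Fin 4 → ℝ) : Set E := torus (S0 p) (p 3)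

/-- a compact set of parameters -/
def Q (n : ℕ) : Set (Fin 4 → ℝ) :=
  {p | (∀ i, |p i| ≤ (n : ℝ)) ∧ 0 ≤ p 2 ∧ 1 / ((n : ℝ) + 1) ≤ p 3}

/-- the volume of the part of the torus in the ball `B (0, j + 1)` minus half the volume of the ball -/
noncomputable def b (j : ℕ) (p : Fin 4 → ℝ) : ℝ :=
  (volume (T0 p ∩ ball (0 : E) (j + 1))).toReal - (volume (ball (0 : E) (j + 1))).toReal / 2

/-- the weights -/
noncomputable def wt (j : ℕ) : ℝ := 1 / ((j : ℝ) + 1) ^ 5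

/-! ### The jobs -/

/-- JOB NORM: every torus is the image of a torus in standard position under a linear isometry -/
def StNorm : Prop := ∀ T, RegularTorus T → ∃ (L : E ≃ₗᵢ[ℝ] E) (p : Fin 4 → ℝ),
  0 ≤ p 2 ∧ 0 < p 3 ∧ T0 p = L '' T

/-- JOB KN: Kneser's inequality -/
def StKn : Prop := ∀ (S : Set E) (α k : ℝ), IsCompact S → S.Nonempty → 0 < α → 1 ≤ k →
  volume (torus S (k * α)) ≤ ENNReal.ofReal (k ^ 3) * volume (torus S α)

/-- JOB LIP (may assume `StKn`) -/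
def StLip : Prop := ∀ n : ℕ, ∃ C : ℝ, 0 ≤ C ∧ ∀ j : ℕ, ∀ p ∈ Q n, ∀ q ∈ Q n,
  |b j p - b j q| ≤ C * dist p q

/-- JOB GAP: bounded tori do not contain half of a large ball; the size of `b` -/
def StGap : Prop := (∀ n : ℕ, ∃ j : ℕ, ∀ p ∈ Q n, b j p ≠ 0) ∧
  ∃ C : ℝ, 0 ≤ C ∧ ∀ (j : ℕ) (p : Fin 4 → ℝ), |b j p| ≤ C * ((j : ℝ) + 1) ^ 3

/-- JOB DIM: Lipschitz images of subsets of `ℝ⁴` in `ℝ⁵` have no interior points -/
def StDim : Prop := ∀ (K : Set (Fin 4 → ℝ)) (G : (Fin 4 → ℝ) → (Fin 5 → ℝ)) (C : NNReal),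
  LipschitzOnWith C G K → interior (G '' K) = ∅

/-- JOB BAIRE (may assume `StDim`) -/
def StBaire : Prop := ∀ (b : ℕ → (Fin 4 → ℝ) → ℝ) (Q : ℕ → Set (Fin 4 → ℝ)) (w B : ℕ → ℝ),
  (∀ n, IsCompact (Q n)) → (∀ j, 0 < w j) → Summable w → Summable (fun j => w j * B j) →
  (∀ j p, |b j p| ≤ B j) →
  (∀ n, ∃ C : ℝ, 0 ≤ C ∧ ∀ j, ∀ p ∈ Q n, ∀ q ∈ Q n, |b j p - b j q| ≤ C * dist p q) →
  (∀ n, ∃ j, ∀ p ∈ Q n, b j p ≠ 0) →
  ∃ c : Fin 5 → ℕ → ℝ, (∀ i j, 1 ≤ c i j ∧ c i j ≤ 2) ∧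
    ∀ n, ∀ p ∈ Q n, ∃ i, ∑' j, c i j * (w j * b j p) ≠ 0

/-- JOB MEAS: the measures -/
def StMeas : Prop := ∀ c : ℕ → ℝ, (∀ j, 1 ≤ c j ∧ c j ≤ 2) → ∃ μ : Measure E,
  IsFiniteMeasure μ ∧ μ ≪ volume ∧ (∀ (L : E ≃ₗᵢ[ℝ] E) (T : Set E), μ (L '' T) = μ T) ∧
    ∀ p : Fin 4 → ℝ, 2 * μ (T0 p) = μ univ → ∑' j, c j * (wt j * b j p) = 0

end Pool.Agent.K7.H7.TB
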